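import Mathlib

/-!
# Project TCL (MP_4132b3_nt, TorsionClasses): definitions

`O = ℤ + ℤ ω` is the ring of integers of an imaginary quadratic field of class number one, as a
subring of `ℂ`. An elliptic curve over `ℚ` with complex multiplication by `O` has a Hecke character
`ψ(α) = ε(α) α`; its torsion points are the elements of `K / O`, where `K` is the field of fractions
of `O`, and `Gal(ℚbar / K)` acts on them by multiplication by the `ψ(α)`.
-/

set_option autoImplicit false

namespace Pool.Agent.TCL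

open Complex

/-- `O = ℤ + ℤ ω`, with `ω` in the upper half plane -/
structure Quad (O : Subring ℂ) (ω : ℂ) : Prop where
  im_pos : 0 < ω.im
  mem : ∀ z : ℂ, z ∈ O ↔ ∃ a b : ℤ, z = a + b * ω

/-- the field of fractions of `O` -/
noncomputable def KK (O : Subring ℂ) : Subfield ℂ := Subfield.closure (O : Set ℂ)

/-- Hecke characters `α ↦ ε(α) α` of the elliptic curves over `ℚ` with complex multiplication
by `O`: `ε` is a primitive character modulo `f` with values in the units of `O`,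
`ε(u) = u⁻¹` for all units `u`, `ε(conj α) = conj (ε(α))`. -/
structure GC (O : Subring ℂ) (f : O) (ε : O → O) : Prop where
  mul : ∀ a b, ε (a * b) = ε a * ε b
  per : ∀ a b, ε (a + f * b) = ε a
  unit : ∀ a, IsCoprime a f → IsUnit (ε a)
  zero : ∀ a, ¬ IsCoprime a f → ε a = 0
  inv : ∀ u, IsUnit u → ε u * u = 1
  conj : ∀ a a' : O, (a' : ℂ) = starRingEnd ℂ a → (ε a' : ℂ) = starRingEnd ℂ (ε a)
  prim : ∀ g, g ∣ f → ¬ f ∣ g → ∃ a, IsCoprime a f ∧ g ∣ a - 1 ∧ ε a ≠ 1

/-- the pairing of `ℂ / O` and `O` -/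
noncomputable def pr (ω t g : ℂ) : ℂ :=
  exp (2 * Real.pi * I * (((t * starRingEnd ℂ g).im / ω.im : ℝ) : ℂ))

/-- the Eisenstein-Kronecker series at the point `t` of `ℂ / O` -/
noncomputable def SS (O : Subring ℂ) (ω t : ℂ) : ℂ :=
  ∑' g : O, pr ω t g * starRingEnd ℂ (g : ℂ) / (‖(g : ℂ)‖ : ℂ) ^ 6

/-- the value at `3` of the `L`-function of `ψ`, the sum of `ψ(a) N(a)⁻³` over the nonzero ideals -/
noncomputable def LE (O : Subring ℂ) (ε : O → O) : ℂ :=
  (∑' a : O, (ε a : ℂ) * (a : ℂ) / (‖(a : ℂ)‖ : ℂ) ^ 6) / (Nat.card Oˣ : ℂ)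

/-- `R` is a set of representatives of `O / a O` -/
def IsReps {O : Subring ℂ} (a : O) (R : Finset O) : Prop :=
  ∀ x : O, ∃! k, k ∈ R ∧ a ∣ x - k

/-- A function `ξ` on `K / O - 0` with values in a `K`-vector space which satisfies the distribution
relations `∑_(a s = t) ξ(s) = ξ(t) / (a conj(a)²)` and is invariant under Galois, that is
`ξ(ψ(a) t) = ξ(t)` if `a` is prime to `f` and to the order `n` of `t`. (Values outside of `K` do not
matter.) -/
structure Sys (O : Subring ℂ) (f : O) (ε : O → O) (H : Type) [AddCommGroup H] [Module (KK O) H]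
    (ξ : ℂ → H) : Prop where
  per : ∀ t ∈ KK O, ∀ a : O, ξ (t + a) = ξ t
  dist : ∀ t ∈ KK O, t ∉ O → ∀ a : O, a ≠ 0 → ∀ R : Finset O, IsReps a R →
    ∀ c : KK O, (c : ℂ) * ((a : ℂ) * starRingEnd ℂ (a : ℂ) ^ 2) = 1 →
      ∑ k ∈ R, ξ ((t + k) / a) = c • ξ t
  gal : ∀ t ∈ KK O, t ∉ O → ∀ n a : O, n ≠ 0 → (n : ℂ) * t ∈ O → IsCoprime a (n * f) →
    ξ (ε a * a * t) = ξ t

/-- Divisors with rational coefficients of nonzero `N`-torsion points `x / N`, invariant under Galois
and under the complex conjugation `t ↦ v conj(t)` of `K / O`, `v` a unit: `b x` is the coefficient of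
the point `x / N`. -/
structure Div (O : Subring ℂ) (f : O) (ε : O → O) (v : O) (N : ℕ) (b : O → ℚ) : Prop where
  per : ∀ x y : O, b (x + N * y) = b x
  zero : ∀ x : O, (N : O) ∣ x → b x = 0
  gal : ∀ a x : O, IsCoprime a (N * f) → b (ε a * a * x) = b x
  conj : ∀ x x' : O, (x' : ℂ) = starRingEnd ℂ x → b (v * x') = b x

open Classical in
/-- the average of `SS` over the Galois orbit of `t`, computed modulo `M` -/
noncomputable def AV (O : Subring ℂ) (ω : ℂ) (ε : O → O) (M : O) (R : Finset O) (t : ℂ) : ℂ :=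
  (∑ a ∈ R.filter (fun a => IsCoprime a M), SS O ω (ε a * a * t)) /
    ((R.filter (fun a => IsCoprime a M)).card : ℂ)

open Classical in
/-- the average of `SS` over the Galois orbit of `t` -/
noncomputable def Sb (O : Subring ℂ) (ω : ℂ) (f : O) (ε : O → O) (t : ℂ) : ℂ :=
  if h : ∃ p : O × Finset O, f ∣ p.1 ∧ p.1 ≠ 0 ∧ IsReps p.1 p.2 ∧ (p.1 : ℂ) * t ∈ O then
    AV O ω ε h.choose.1 h.choose.2 t else 0

open Classical in
/-- the Gauss sum -/
noncomputable def GS (O : Subring ℂ) (ω : ℂ) (f : O) (ε : O → O) (R : Finset O) (g : ℂ) : ℂ :=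
  ∑ a ∈ R.filter (fun a => IsCoprime a f), starRingEnd ℂ (ε a : ℂ) * pr ω ((a : ℂ) / f) g

open Classical in
/-- the number of invertible classes modulo `f` -/
noncomputable def phi {O : Subring ℂ} (f : O) (R : Finset O) : ℕ :=
  (R.filter (fun a => IsCoprime a f)).card

end Pool.Agent.TCL
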