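import Mathlib
import Pool.Agent.Lib_helper76.TCL.Defs

set_option autoImplicit false

namespace Pool.Agent.TCL

open Complex

theorem quad_omega {O : Subring ℂ} {ω : ℂ} (hO : Quad O ω) : ω ∈ O :=
  (hO.mem ω).2 ⟨0, 1, by push_cast; ring⟩

/-- `ω` is a root of a monic quadratic polynomial over `ℤ`, so `ω + conj ω` and `ω * conj ω`
are integers -/
theorem quad_trace {O : Subring ℂ} {ω : ℂ} (hO : Quad O ω) :
    ∃ p q : ℤ, ω + starRingEnd ℂ ω = p ∧ ω * starRingEnd ℂ ω = q := by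
  have h1 : ω * ω ∈ O := O.mul_mem (quad_omega hO) (quad_omega hO)
  obtain ⟨a, b, hab⟩ := (hO.mem _).1 h1
  have him : ω.im ≠ 0 := ne_of_gt hO.im_pos
  have hne : ω - starRingEnd ℂ ω ≠ 0 := by
    intro h
    have : (ω - starRingEnd ℂ ω).im = 0 := by rw [h]; simp
    simp at this
    exact him this
  have hab' : starRingEnd ℂ ω * starRingEnd ℂ ω = a + b * starRingEnd ℂ ω := by
    have := congrArg (starRingEnd ℂ) hab
    simpa using this
  have h2 : ω + starRingEnd ℂ ω = b := by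
    have h3 : (ω - starRingEnd ℂ ω) * (ω + starRingEnd ℂ ω) = (ω - starRingEnd ℂ ω) * b := by
      linear_combination hab - hab'
    exact mul_left_cancel₀ hne h3
  refine ⟨b, -a, h2, ?_⟩
  push_cast
  linear_combination ω * h2 - hab

theorem conj_mem {O : Subring ℂ} {ω : ℂ} (hO : Quad O ω) {z : ℂ} (hz : z ∈ O) :
    starRingEnd ℂ z ∈ O := by
  obtain ⟨a, b, rfl⟩ := (hO.mem _).1 hz
  obtain ⟨p, q, hp, -⟩ := quad_trace hO
  refine (hO.mem _).2 ⟨a + b * p, -b, ?_⟩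
  simp only [map_add, map_mul, map_intCast]
  push_cast
  linear_combination (b : ℂ) * hp

/-- complex conjugation on `O` -/
def cj {O : Subring ℂ} {ω : ℂ} (hO : Quad O ω) (a : O) : O :=
  ⟨starRingEnd ℂ (a : ℂ), conj_mem hO a.2⟩

theorem coe_cj {O : Subring ℂ} {ω : ℂ} (hO : Quad O ω) (a : O) :
    ((cj hO a : O) : ℂ) = starRingEnd ℂ (a : ℂ) := rfl

theorem cj_cj {O : Subring ℂ} {ω : ℂ} (hO : Quad O ω) (a : O) : cj hO (cj hO a) = a :=
  Subtype.ext (by simp [coe_cj])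

theorem cj_mul {O : Subring ℂ} {ω : ℂ} (hO : Quad O ω) (a b : O) :
    cj hO (a * b) = cj hO a * cj hO b :=
  Subtype.ext (by simp [coe_cj])

theorem cj_add {O : Subring ℂ} {ω : ℂ} (hO : Quad O ω) (a b : O) :
    cj hO (a + b) = cj hO a + cj hO b :=
  Subtype.ext (by simp [coe_cj])

theorem cj_sub {O : Subring ℂ} {ω : ℂ} (hO : Quad O ω) (a b : O) :
    cj hO (a - b) = cj hO a - cj hO b :=
  Subtype.ext (by simp [coe_cj])

theorem cj_one {O : Subring ℂ} {ω : ℂ} (hO : Quad O ω) : cj hO 1 = 1 :=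
  Subtype.ext (by simp [coe_cj])

theorem cj_zero {O : Subring ℂ} {ω : ℂ} (hO : Quad O ω) : cj hO 0 = 0 :=
  Subtype.ext (by simp [coe_cj])

theorem cj_nat {O : Subring ℂ} {ω : ℂ} (hO : Quad O ω) (n : ℕ) : cj hO n = n :=
  Subtype.ext (by simp [coe_cj])

theorem cj_isCoprime {O : Subring ℂ} {ω : ℂ} (hO : Quad O ω) {a b : O} (h : IsCoprime a b) :
    IsCoprime (cj hO a) (cj hO b) := by
  obtain ⟨x, y, hxy⟩ := h
  refine ⟨cj hO x, cj hO y, ?_⟩
  rw [← cj_mul, ← cj_mul, ← cj_add, hxy, cj_one]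

theorem cj_dvd {O : Subring ℂ} {ω : ℂ} (hO : Quad O ω) {a b : O} (h : a ∣ b) :
    cj hO a ∣ cj hO b := by
  obtain ⟨x, rfl⟩ := h
  exact ⟨cj hO x, cj_mul hO a x⟩

theorem cj_isUnit {O : Subring ℂ} {ω : ℂ} (hO : Quad O ω) {a : O} (h : IsUnit a) :
    IsUnit (cj hO a) := by
  obtain ⟨b, hb⟩ := h.exists_right_inv
  refine IsUnit.of_mul_eq_one (cj hO b) ?_
  rw [← cj_mul, hb, cj_one]

/-- `ε (conj a) = conj (ε a)` -/
theorem eps_cj {O : Subring ℂ} {ω : ℂ} (hO : Quad O ω) {f : O} {ε : O → O} (hε : GC O f ε)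
    (a : O) : ε (cj hO a) = cj hO (ε a) :=
  Subtype.ext (hε.conj a (cj hO a) rfl)

theorem coe_ne_zero {O : Subring ℂ} {a : O} (ha : a ≠ 0) : (a : ℂ) ≠ 0 := by
  simpa using ha

theorem eps_one {O : Subring ℂ} {f : O} {ε : O → O} (hε : GC O f ε) : ε 1 = 1 := by
  simpa using hε.inv 1 isUnit_one

open Classical in
/-- the sum over the `a` prime to `M` -/
noncomputable def TT (O : Subring ℂ) (ε : O → O) (M : O) : ℂ :=
  ∑' a : O, if IsCoprime a M then (ε a : ℂ) * (a : ℂ) / (‖(a : ℂ)‖ : ℂ) ^ 6 else 0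

open Classical in
/-- Galois orbit of the point `x0 / N` and of its conjugate, as a divisor -/
noncomputable def orb {O : Subring ℂ} {ω : ℂ} (hO : Quad O ω) (ε : O → O) (v : O) (N : ℕ)
    (M : O) (R : Finset O) (x0 : O) (x : O) : ℚ :=
  (((R.filter (fun a => IsCoprime a M)).filter
      (fun a => (N : O) ∣ x - ε a * a * x0)).card : ℚ) +
    (((R.filter (fun a => IsCoprime a M)).filter
      (fun a => (N : O) ∣ x - v * cj hO (ε a * a * x0))).card : ℚ)

/-- the Gaussian integers -/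
noncomputable def GI : Subring ℂ := GaussianInt.toComplex.range

end Pool.Agent.TCL
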